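import Pool.Agent.H63.RP.Main

/-!
Every triangulation of real projective 5-space has at least 24 vertices.
-/

set_option autoImplicit false

namespace Pool.Agent.Results.MP_21a6c3_gt.TwentyFour

/-- A finite geometric simplicial complex in a Euclidean space whose underlying space is
homeomorphic to the 5-sphere with antipodal points identified (real projective 5-space) has at
least 24 vertices. -/
theorem result (n : ℕ) (K : Geometry.SimplicialComplex ℝ (EuclideanSpace ℝ (Fin n)))
    (hfin : K.faces.Finite)
    (h : Nonempty (Homeomorph (↥K.space)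
        (Quot (fun x y : Metric.sphere (0 : EuclideanSpace ℝ (Fin 6)) 1 =>
          (x : EuclideanSpace ℝ (Fin 6)) = (y : EuclideanSpace ℝ (Fin 6)) ∨
          (x : EuclideanSpace ℝ (Fin 6)) = -(y : EuclideanSpace ℝ (Fin 6)))))) :
    24 ≤ K.vertices.ncard :=
  Pool.Agent.H63.RP.main n K hfin h

end Pool.Agent.Results.MP_21a6c3_gt.TwentyFour
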